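import Pool.Agent.H42.Dens

namespace Pool.Agent.Results.MP_2abcfb_lc.Full

open MeasureTheory

theorem result : ∃ ψ : Set ℝ → Set ℝ,
    (∀ M, NullMeasurableSet M volume → IsGδ (ψ M)) ∧
    (∀ M M', NullMeasurableSet M volume → NullMeasurableSet M' volume → M ⊆ M' → ψ M ⊆ ψ M') ∧
    (∀ M, NullMeasurableSet M volume → volume (symmDiff M (ψ M)) = 0) ∧
    (∀ M M', NullMeasurableSet M volume → NullMeasurableSet M' volume →
      volume (symmDiff M M') = 0 → ψ M = ψ M') := by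
  refine ⟨Pool.Agent.H42.Dens.psi, fun M _ => Pool.Agent.H42.Dens.psi_gdelta M,
    fun M M' _ _ h => Pool.Agent.H42.Dens.psi_mono_ae h.eventuallyLE, fun M hM => ?_,
    fun M M' _ _ h => Pool.Agent.H42.Dens.psi_congr ?_⟩
  · exact measure_symmDiff_eq_zero_iff.2 (Pool.Agent.H42.Dens.psi_ae hM)
  · exact measure_symmDiff_eq_zero_iff.1 h

end Pool.Agent.Results.MP_2abcfb_lc.Full
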